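import Pool.Agent.U297.LG.Small

/-!
# Full subcomplexes and the degree of the `γ`-polynomial
-/

set_option autoImplicit false
set_option linter.unusedSectionVars false

namespace Pool.Agent.U297.LG

open Pool.Agent.W907.SG Pool.Agent.W907.SM Pool.Agent.TH652.Above Pool.Agent.R703.CW
open Pool.Agent.Y132.SI Pool.Agent.N13.EU Pool.Agent.N13.PL Pool.Agent.U297.GD
open Polynomial (X C)

/-- full subcomplexes -/
theorem lv_embed {V U : Type} {G : SimpleGraph V} {H : SimpleGraph U} (f : H ↪g G) (A : Set U) (i : ℕ)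
    (h : LV (G.induce (f '' A)) i) : LV (H.induce A) i := by
  classical
  let e : H.induce A ≃g G.induce (f '' A) :=
    { toEquiv := Equiv.Set.image f A f.injective
      map_rel_iff' := by
        intro a b
        simp [SimpleGraph.comap_adj] }
  exact liso _ _ _ _ i ⟨e.symm⟩ h

theorem gsum_cut {n g : ℕ} {c : ℕ → ℚ} (hg : g ≤ n / 2) (h : ∀ i, g < i → i ≤ n / 2 → c i = 0) :
    gsum n (n / 2 + 1) c = gsum n (g + 1) c := by
  unfold gsum
  symm
  refine Finset.sum_subset ?_ ?_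
  · intro i hi
    rw [Finset.mem_range] at hi ⊢
    omega
  · intro i hi hi'
    rw [Finset.mem_range] at hi hi'
    rw [h i (by omega) (by omega), map_zero, zero_mul]

/-- the top coefficient -/
theorem exists_lead {n j : ℕ} {c : ℕ → ℚ} (hj : j ≤ n / 2) (h : c j ≠ 0) :
    ∃ g, j ≤ g ∧ g ≤ n / 2 ∧ c g ≠ 0 ∧ gsum n (n / 2 + 1) c = gsum n (g + 1) c := by
  classical
  obtain ⟨g, hg, hmax⟩ := (Finset.filter (fun i => c i ≠ 0) (Finset.range (n / 2 + 1))).exists_max_image
    (fun i => i) ⟨j, by rw [Finset.mem_filter, Finset.mem_range]; exact ⟨by omega, h⟩⟩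
  rw [Finset.mem_filter, Finset.mem_range] at hg
  refine ⟨g, ?_, by omega, hg.2, gsum_cut (by omega) fun i hi hi' => ?_⟩
  · exact hmax j (by rw [Finset.mem_filter, Finset.mem_range]; exact ⟨by omega, h⟩)
  · by_contra hc
    have := hmax i (by rw [Finset.mem_filter, Finset.mem_range]; exact ⟨by omega, hc⟩)
    omega

section Fin

variable {V : Type} [Fintype V] [LinearOrder V] {G : SimpleGraph V} {n l : ℕ} {c : ℕ → ℚ}
variable {U : Type} [Fintype U] [LinearOrder U] {H : SimpleGraph U} {m : ℕ} {b : ℕ → ℚ}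

/-- nonzero `ℓ²`-homology from a full subcomplex -/
theorem top_of_sub (hH : HSph m H) (f : H ↪g G) {j : ℕ} (hj : j ≤ m / 2) (hb : b j ≠ 0)
    (h : fpoly H = gsum m (m / 2 + 1) b) :
    ∃ (A : Finset V) (i : ℕ), j ≤ i ∧ ¬ L2Van (G.induce (A : Set V)) i := by
  classical
  obtain ⟨g, h1, h2, h3, h4⟩ := exists_lead hj hb
  rw [h4] at h
  obtain ⟨T, -, -, -, i, hi, hn⟩ := uncond hH (by omega) h3 h
  refine ⟨(Set.toFinite (f '' (lk H T))).toFinset, i, by omega, fun hv => hn ?_⟩
  have h5 := Pool.Agent.N13.EU.lv_of hv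
  rw [Set.Finite.coe_toFinset] at h5
  exact lv_embed f _ i h5

/-- **the degree is monotone** -/
theorem mono_deg (hS : HSph n G) (hl : 1 ≤ l) (hL : LinksUpTo (2 * l) n G)
    (hc : fpoly G = gsum n (n / 2 + 1) c) (h0 : ∀ i, l ≤ i → i ≤ n / 2 → c i = 0)
    (hH : HSph m H) (f : H ↪g G) (hb : fpoly H = gsum m (m / 2 + 1) b) :
    ∀ j, l ≤ j → j ≤ m / 2 → b j = 0 := by
  intro j hj hj'
  by_contra hne
  obtain ⟨A, i, hi, hn⟩ := top_of_sub hH f hj' hne hb
  exact hn ((small hS hl hL hc h0).1 A i (by omega))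

theorem mono_tau (hS : HSph n G) (hl : 1 ≤ l) (hn : 2 * l ≤ n) (hL : LinksUpTo (2 * l) n G)
    (hc : fpoly G = gsum n (n / 2 + 1) c)
    (hH : HSph m H) (f : H ↪g G) (hb : fpoly H = gsum m (m / 2 + 1) b)
    {j : ℕ} (hj : l ≤ j) (hj' : j ≤ m / 2) (hne : b j ≠ 0) : 0 < tau n l c := by
  obtain ⟨h1, h2, -⟩ := tau_main hS hl hn hL hc
  refine lt_of_le_of_ne h1 fun h => hne ?_
  exact mono_deg hS hl hL hc (h2.1 h.symm) hH f hb j hj hj'

/-- two nonadjacent vertices: no `ℓ²`-homology in degree zero -/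
theorem lv_zero {W : Type} [Finite W] (K : SimpleGraph W) (x y : W) (hxy : x ≠ y) (hadj : ¬ K.Adj x y) :
    LV K 0 := by
  classical
  have h1 : LV (K.induce ({x, y} : Set W)) 0 := by
    refine lsusp _ _ (⟨x, Or.inl rfl⟩ : ↥({x, y} : Set W)) ⟨y, Or.inr rfl⟩ 0 ?_ ?_ ?_
    · exact fun e => hxy (congrArg Subtype.val e)
    · exact hadj
    · rintro ⟨u, rfl | rfl⟩ hu1 hu2
      · exact absurd rfl hu1
      · exact absurd rfl hu2
  have h2 := ascend_one K Set.univ ({x, y} : Set W) 0 (Set.subset_univ _) h1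
    (fun w _ _ Y _ j hj => absurd hj (by omega))
  rwa [lv_univ] at h2

/-- the complete bipartite graph with parts of size three -/
def K33 : SimpleGraph (Fin 6) where
  Adj a b := a.val % 2 ≠ b.val % 2
  symm := ⟨fun _ _ h => h.symm⟩
  loopless := ⟨fun _ h => h rfl⟩

instance : DecidableRel K33.Adj := fun a b => inferInstanceAs (Decidable (a.val % 2 ≠ b.val % 2))

theorem k33_sum : (∑ T ∈ Finset.univ.filter (fun T : Finset (Fin 6) => ∀ x ∈ T, ∀ y ∈ T, x ≠ y → K33.Adj x y),
    (-1 / 2 : ℚ) ^ T.card) = 1 / 4 := by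
  decide +kernel

theorem chi_k33 : chiW K33 = 1 / 4 := by
  classical
  rw [chi_filter, ← k33_sum]
  refine Finset.sum_congr ?_ fun _ _ => rfl
  ext T
  rw [Finset.mem_filter, Finset.mem_filter]
  exact ⟨fun h => ⟨h.1, fun x hx y hy hxy => h.2 hx hy hxy⟩, fun h => ⟨h.1, fun x hx y hy hxy => h.2 x hx y hy hxy⟩⟩

/-- induced complete bipartite graphs -/
theorem k33_tau (hS : HSph n G) (hn : 4 ≤ n) (hc : fpoly G = gsum n (n / 2 + 1) c) (f : K33 ↪g G) :
    0 < tau n 2 c := by
  classical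
  obtain ⟨h1, -, h3⟩ := tau_main (l := 2) hS (by norm_num) (by omega) (linksUpTo_four hS) hc
  refine lt_of_le_of_ne h1 fun h => ?_
  have h4 := h3.1 h.symm
  have hv : ∀ i, 2 ≤ i → LV K33 i := by
    intro i hi
    have h5 := Pool.Agent.N13.EU.lv_of (h4 (Set.toFinite (f '' Set.univ)).toFinset i hi)
    rw [Set.Finite.coe_toFinset] at h5
    have h6 := lv_embed f _ i h5
    rwa [lv_univ] at h6
  have h0 : LV K33 0 := lv_zero K33 0 2 (by decide) (by decide)
  have h7 := chi_sign (m := 1) K33 (fun i hi => by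
    rcases Nat.lt_or_ge i 1 with h8 | h8
    · have : i = 0 := by omega
      subst this
      exact h0 _ _
    · exact hv i (by omega) _ _)
  rw [chi_k33] at h7
  norm_num at h7

/-- full subcomplexes with positive Euler characteristic of the group -/
theorem chi_tau (hS : HSph n G) (hn : 4 ≤ n) (hc : fpoly G = gsum n (n / 2 + 1) c) (A : Finset V)
    (hA : ¬ G.IsClique (A : Set V)) (hx : 0 < (fpoly (G.induce (A : Set V))).eval (-1 / 2 : ℚ)) :
    0 < tau n 2 c := by
  classical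
  obtain ⟨h1, -, h3⟩ := tau_main (l := 2) hS (by norm_num) (by omega) (linksUpTo_four hS) hc
  refine lt_of_le_of_ne h1 fun h => ?_
  have h4 := h3.1 h.symm
  rw [SimpleGraph.isClique_iff, Set.Pairwise] at hA
  push Not at hA
  obtain ⟨x, hx1, y, hy1, hxy, hadj⟩ := hA
  have h0 : LV (G.induce (A : Set V)) 0 := lv_zero _ ⟨x, hx1⟩ ⟨y, hy1⟩
    (fun e => hxy (congrArg Subtype.val e)) hadj
  have h7 := chi_sign (m := 1) (G.induce (A : Set V)) (fun i hi => by
    rcases Nat.lt_or_ge i 1 with h8 | h8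
    · have : i = 0 := by omega
      subst this
      exact h0 _ _
    · exact h4 A i (by omega))
  rw [eval_eq, chiL_empty] at hx
  linarith

theorem linksUpTo_of_hered {r : ℕ} (hS : HSph n G) (hH : Hered n G) : LinksUpTo r n G := by
  intro T hT _ i hi
  have h2 := card_le_of_hsph hS T hT
  exact abv_of_hered hS hH T hT _ Set.Subset.rfl i (by omega)

end Fin

end Pool.Agent.U297.LG
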