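import Pool.Agent.U297.LG.Final
import Pool.Agent.R703.MO.Main

/-!
# Spheres with a `γ`-polynomial of small degree
-/

set_option autoImplicit false
set_option linter.unusedSectionVars false

namespace Pool.Agent.U297.LG

open Pool.Agent.W907.SG Pool.Agent.W907.SM Pool.Agent.TH652.Above Pool.Agent.R703.CW
open Pool.Agent.Y132.SI Pool.Agent.N13.EU Pool.Agent.N13.PL Pool.Agent.U297.GD
open Polynomial (X C)

variable {V : Type} [Fintype V] [LinearOrder V] {G : SimpleGraph V} {n l : ℕ} {c : ℕ → ℚ}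

theorem l2van_univ {i : ℕ} (h : L2Van (G.induce ((Finset.univ : Finset V) : Set V)) i) : L2Van G i := by
  have h2 := Pool.Agent.N13.EU.lv_of h
  rw [Finset.coe_univ, lv_univ] at h2
  exact h2 _ _

theorem small (hS : HSph n G) (hl : 1 ≤ l) (hL : LinksUpTo (2 * l) n G)
    (hc : fpoly G = gsum n (n / 2 + 1) c) (h0 : ∀ i, l ≤ i → i ≤ n / 2 → c i = 0) :
    (∀ (A : Finset V) (i : ℕ), l ≤ i → L2Van (G.induce (A : Set V)) i) ∧
      (∀ i : ℕ, 2 * i ≠ n → L2Van G i) ∧ (2 * l ≤ n → ∀ i : ℕ, L2Van G i) := by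
  rcases Nat.lt_or_ge n (2 * l) with hn | hn
  · have hab := abv_up hS hL
    have hH : Hered n G := hered_of_abv hS fun T hT => hab T hT (by omega)
    refine ⟨fun A i hi => ?_, singer_hered hS hH, fun h => absurd h (by omega)⟩
    exact hH ∅ (by simp) A (by intro v _ u hu; exact absurd hu (Finset.notMem_empty u)) i
      (by rw [Finset.card_empty]; omega)
  · obtain ⟨h1, h2, h3⟩ := equality hS hl hn hL
    have hz : chiSum G (n - 2 * l) = 0 :=
      (tau_zero_iff hn hc).1 ((tau_main hS hl hn hL hc).2.1.2 h0)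
    have hv := h1.1 hz
    have hs := singer_hered hS (h3 hz)
    refine ⟨hv, hs, fun _ i => ?_⟩
    by_cases hi : 2 * i = n
    · exact l2van_univ (hv Finset.univ i (by omega))
    · exact hs i hi

theorem growth_small (h : ∀ (A : Finset V) (i : ℕ), l ≤ i → L2Van (G.induce (A : Set V)) i)
    (A : Finset V) (ε : ℝ) (hε : 0 < ε) :
    ∃ E : Finset (W (G.induce (A : Set V))), (1 : W (G.induce (A : Set V))) ∉ E ∧
      ∀ H : Subgroup (W (G.induce (A : Set V))), H.FiniteIndex →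
        (∀ e ∈ E, ∀ x : W (G.induce (A : Set V)), x * e * x⁻¹ ∉ H) → ∀ i : ℕ, l ≤ i →
        (Module.finrank ℝ (HInv (G.induce (A : Set V)) H i) : ℝ) ≤ ε * H.index :=
  Pool.Agent.R703.MO.growth_set (G.induce (A : Set V)) (fun i => l ≤ i) (fun i hi => h A i hi) ε hε

theorem growth_singer (h : ∀ i : ℕ, 2 * i ≠ n → L2Van G i) (ε : ℝ) (hε : 0 < ε) :
    ∃ E : Finset (W G), (1 : W G) ∉ E ∧ ∀ H : Subgroup (W G), H.FiniteIndex →
      (∀ e ∈ E, ∀ x : W G, x * e * x⁻¹ ∉ H) → ∀ i : ℕ, 2 * i ≠ n →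
        (Module.finrank ℝ (HInv G H i) : ℝ) ≤ ε * H.index :=
  Pool.Agent.R703.MO.growth_set G (fun i => 2 * i ≠ n) h ε hε

end Pool.Agent.U297.LG
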