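import Pool.Agent.U297.LG.Weighted

/-!
# Four-dimensional links with `γ_2 ≤ 4`
-/

set_option autoImplicit false
set_option linter.unusedSectionVars false

namespace Pool.Agent.U297.LG

open Pool.Agent.W907.SG Pool.Agent.W907.SM Pool.Agent.TH652.Above Pool.Agent.R703.CW
open Pool.Agent.Y132.SI Pool.Agent.N13.EU Pool.Agent.N13.PL Pool.Agent.U297.GD
open Polynomial (X C)

section Fin

variable {V : Type} [Fintype V] [LinearOrder V] {G : SimpleGraph V} {n l : ℕ} {c : ℕ → ℚ}

/-- few vertices of the links of rank five have links with nonzero Euler characteristic -/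
def FewBad (n : ℕ) (G : SimpleGraph V) : Prop :=
  ∀ T : Finset V, G.IsClique (T : Set V) → T.card + 5 = n →
    {v | v ∈ lk G T ∧ chiL G (insert v T) ≠ 0}.ncard ≤ 8

theorem abv_five (hS : HSph n G) (hb : FewBad n G) {T : Finset V} (hT : G.IsClique (T : Set V))
    (hTn : T.card + 5 = n) : Abv G (lk G T) 5 := by
  classical
  have h4 := abv_up hS (linksUpTo_four hS)
  intro A hA i hi
  refine ascend G (lk G T) {v | v ∈ lk G T ∧ chiL G (insert v T) ≠ 0} i (fun B _ hB => ?_)
    (fun w hw hwU Y hY j hj => ?_) A hA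
  · have h5 : B.ncard ≤ 8 := (Set.ncard_le_ncard hB).trans (hb T hT hTn)
    exact lv_few G _ i B rfl (by omega) (by omega)
  · have h6 : chiL G (insert w T) = 0 := by
      by_contra h
      exact hwU ⟨hw, h⟩
    have hc := clique_ins hT hw
    have hcard := card_ins hw
    have h7 : Abv G (lk G (insert w T)) 3 := by
      have h8 := h4 (insert w T) hc (by omega)
      rw [show n - (insert w T).card = 4 by omega] at h8
      refine euler_rule (m := 2) t_BR hS hc (by omega) h8 h6 (fun u hu => ?_) (by norm_num)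
      have h9 := h4 (insert u (insert w T)) (clique_ins hc hu) (by rw [card_ins hu]; omega)
      rwa [show n - (insert u (insert w T)).card = 3 by rw [card_ins hu]; omega] at h9
    rw [lk_ins] at hY
    exact h7 Y hY j (by omega)

/-- the links of rank at most six -/
theorem linksUpTo_six (hS : HSph n G) (hb : FewBad n G) : LinksUpTo 6 n G := by
  classical
  intro T hT hr i hi
  have h4 := abv_up hS (linksUpTo_four hS)
  have hle := card_le_of_hsph hS T hT
  rcases Nat.lt_or_ge (n - T.card) 5 with h | h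
  · exact h4 T hT (by omega) _ Set.Subset.rfl i (by omega)
  · rcases Nat.eq_or_lt_of_le h with h5 | h5
    · exact abv_five hS hb hT (by omega) _ Set.Subset.rfl i (by omega)
    · have h6 : T.card + 6 = n := by omega
      refine ascend G (lk G T) ∅ i (fun A' _ hA' => ?_) (fun w hw _ Y hY j hj => ?_) _ Set.Subset.rfl
      · have : A' = ∅ := Set.subset_empty_iff.1 hA'
        subst this
        exact lv_empty G i (by omega)
      · rw [lk_ins] at hY
        exact abv_five hS hb (clique_ins hT hw) (by rw [card_ins hw]; omega) Y hY j (by omega)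

/-- integrality: `16 χ` is an integer for a sphere of rank four -/
theorem chi_int {U : Type} [Fintype U] [LinearOrder U] {H : SimpleGraph U} (hH : HSph 4 H) :
    ∃ z : ℤ, chiW H = z / 16 := by
  classical
  rw [chi_filter]
  refine ⟨∑ T ∈ Finset.univ.filter (fun T : Finset U => H.IsClique (T : Set U)), (-1) ^ T.card * 2 ^ (4 - T.card), ?_⟩
  push_cast
  rw [Finset.sum_div]
  refine Finset.sum_congr rfl fun T hT => ?_
  have h1 := card_le_of_hsph hH T (Finset.mem_filter.1 hT).2
  have h2 : (16 : ℚ) = 2 ^ (4 - T.card) * 2 ^ T.card := by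
    rw [← pow_add, show 4 - T.card + T.card = 4 by omega]
    norm_num
  rw [h2, div_pow]
  have h3 : (2 : ℚ) ^ T.card ≠ 0 := pow_ne_zero _ (by norm_num)
  have h4 : (2 : ℚ) ^ (4 - T.card) ≠ 0 := pow_ne_zero _ (by norm_num)
  field_simp

theorem chiL_ge {T : Finset V} (hS : HSph n G) (hT : G.IsClique (T : Set V)) (hTn : T.card + 4 = n)
    (h0 : chiL G T ≠ 0) : 1 / 16 ≤ chiL G T := by
  classical
  have h1 := hsph_link hS T hT
  rw [show n - T.card = 4 by omega] at h1
  obtain ⟨z, hz⟩ := chi_int h1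
  have h2 := chi_sgn (m := 2) t_BR hS hT (abv_up hS (linksUpTo_four hS) T hT (by omega)) (by omega)
  have h3 : chiL G T = z / 16 := by rw [t_BR V G T hT, hz]
  rw [h3] at h0 h2 ⊢
  have h5 : (0 : ℚ) ≤ z / 16 := by
    have : (-1 : ℚ) ^ 2 * ((z : ℚ) / 16) = z / 16 := by ring
    rwa [this] at h2
  have h6 : (0 : ℚ) ≤ z := by
    have := mul_nonneg h5 (by norm_num : (0 : ℚ) ≤ 16)
    rwa [div_mul_cancel₀ _ (by norm_num : (16 : ℚ) ≠ 0)] at this
  have h7 : (z : ℚ) ≠ 0 := fun h => h0 (by rw [h, zero_div])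
  have h8 : (0 : ℤ) ≤ z := by exact_mod_cast h6
  have h9 : z ≠ 0 := by exact_mod_cast h7
  have h10 : (1 : ℤ) ≤ z := by omega
  have h11 : (1 : ℚ) ≤ z := by exact_mod_cast h10
  linarith

theorem chiSum_link {T : Finset V} (hT : G.IsClique (T : Set V)) [Fintype ↥(lk G T)] :
    chiSum (G.induce (lk G T)) 1 = ∑ v : ↥(lk G T), chiL G (insert v.1 T) := by
  classical
  unfold chiSum
  symm
  refine Finset.sum_bij_ne_zero (fun v _ _ => ({v} : Finset ↥(lk G T))) (fun _ _ _ => Finset.mem_univ _)
    (fun v _ _ w _ _ h => Finset.singleton_injective h) ?_ ?_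
  · intro S _ hS
    have hcond : (G.induce (lk G T)).IsClique (S : Set ↥(lk G T)) ∧ S.card = 1 := by
      by_contra hcon
      exact hS (if_neg hcon)
    obtain ⟨v, rfl⟩ := Finset.card_eq_one.1 hcond.2
    refine ⟨v, Finset.mem_univ _, ?_, rfl⟩
    rw [if_pos hcond, chiL_ind T hT v] at hS
    exact hS
  · intro v _ _
    rw [if_pos ⟨by simp, Finset.card_singleton v⟩, chiL_ind T hT v]

/-- `γ_2 ≤ 4` for the links of dimension four -/
theorem fewBad_of (hS : HSph n G) (h : ∀ T : Finset V, G.IsClique (T : Set V) → T.card + 5 = n →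
    ∀ [Fintype ↥(lk G T)], ∃ c : ℕ → ℚ, fpoly (G.induce (lk G T)) = gsum 5 (5 / 2 + 1) c ∧ c 2 ≤ 4) :
    FewBad n G := by
  classical
  intro T hT hTn
  obtain ⟨c, hc, hc2⟩ := h T hT hTn
  have h1 := chiSum_tau (n := 5) (l := 2) (by norm_num) hc
  have h2 : tau 5 2 c = c 2 / 4 ^ 2 := tau_lead (by norm_num) fun i hi hi' => by omega
  rw [h2, show 5 - 2 * 2 = 1 by norm_num, chiSum_link hT] at h1
  have h3 : ∀ v : ↥(lk G T), chiL G (insert v.1 T) ≠ 0 → 1 / 16 ≤ chiL G (insert v.1 T) := fun v hv =>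
    chiL_ge hS (clique_ins hT v.2) (by rw [card_ins v.2]; omega) hv
  have h4 : ∑ v : ↥(lk G T), chiL G (insert v.1 T) =
      ∑ v ∈ Finset.univ.filter (fun v : ↥(lk G T) => chiL G (insert v.1 T) ≠ 0), chiL G (insert v.1 T) := by
    symm
    refine Finset.sum_filter_of_ne fun v _ hv => hv
  have h5 : ((Finset.univ.filter (fun v : ↥(lk G T) => chiL G (insert v.1 T) ≠ 0)).card : ℚ) * (1 / 16) ≤
      ∑ v ∈ Finset.univ.filter (fun v : ↥(lk G T) => chiL G (insert v.1 T) ≠ 0), chiL G (insert v.1 T) := by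
    rw [← nsmul_eq_mul]
    exact Finset.card_nsmul_le_sum _ _ _ fun v hv => h3 v (Finset.mem_filter.1 hv).2
  rw [← h4, h1] at h5
  have h6 : ((Finset.univ.filter (fun v : ↥(lk G T) => chiL G (insert v.1 T) ≠ 0)).card : ℚ) ≤ 8 := by
    norm_num at h5
    linarith
  have h7 : (Finset.univ.filter (fun v : ↥(lk G T) => chiL G (insert v.1 T) ≠ 0)).card ≤ 8 := by
    exact_mod_cast h6
  have h8 : {v | v ∈ lk G T ∧ chiL G (insert v T) ≠ 0} =
      (((Finset.univ.filter (fun v : ↥(lk G T) => chiL G (insert v.1 T) ≠ 0)).map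
        (Function.Embedding.subtype _) : Finset V) : Set V) := by
    ext v
    simp only [Set.mem_ofPred_eq, Finset.coe_map, Function.Embedding.subtype_apply, Set.mem_image,
      Finset.mem_coe, Finset.mem_filter, Finset.mem_univ, true_and]
    constructor
    · rintro ⟨hv, hv2⟩
      exact ⟨⟨v, hv⟩, hv2, rfl⟩
    · rintro ⟨w, hw, rfl⟩
      exact ⟨w.2, hw⟩
  rw [h8, Set.ncard_coe_finset, Finset.card_map]
  exact h7

/-- all spheres of rank `n ≥ 6` with such four-dimensional links -/
theorem tau_three (hn : 6 ≤ n) (h : ∀ i, 5 ≤ i → i ≤ n / 2 → c i = 0) (h8 : n < 8 → c 4 = 0) :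
    tau n 3 c = (c 3 + c 4) / 64 := by
  have h1 : tau n 3 c = ∑ i ∈ Finset.range 5, (i.choose 3 : ℚ) * c i / 4 ^ i := by
    rw [tau]
    rcases Nat.lt_or_ge n 8 with h9 | h9
    · have h10 : n / 2 + 1 = 4 := by omega
      rw [h10, Finset.sum_range_succ _ 4, h8 h9]
      simp
    · symm
      refine Finset.sum_subset ?_ ?_
      · intro i hi
        rw [Finset.mem_range] at hi ⊢
        omega
      · intro i hi hi'
        rw [Finset.mem_range] at hi hi'
        rw [h i (by omega) (by omega)]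
        simp
  rw [h1]
  simp only [Finset.sum_range_succ, Finset.sum_range_zero]
  rw [show Nat.choose 0 3 = 0 by decide, show Nat.choose 1 3 = 0 by decide, show Nat.choose 2 3 = 0 by decide,
    show Nat.choose 3 3 = 1 by decide, show Nat.choose 4 3 = 4 by decide]
  push_cast
  ring

end Fin

end Pool.Agent.U297.LG
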