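import Pool.Agent.U297.LG.Small
import Pool.Agent.R703.CW.Main

/-!
# Coxeter weights and spheres with a `γ`-polynomial of small degree
-/

set_option autoImplicit false
set_option linter.unusedSectionVars false

namespace Pool.Agent.U297.LG

open Pool.Agent.W907.SG Pool.Agent.W907.SM Pool.Agent.TH652.Above Pool.Agent.R703.CW
open Pool.Agent.Y132.SI Pool.Agent.N13.EU Pool.Agent.N13.PL Pool.Agent.U297.GD
open Pool.Agent.W497.FS (cl lam lkF mem_cl mem_lkF cl_of_subset)
open Y365.FS (bN ordM weighted_eq)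
open Polynomial (X C)

variable {V : Type} [Fintype V] [LinearOrder V] {G : SimpleGraph V} {n m l : ℕ} {c : ℕ → ℚ}

theorem hered_small (hS : HSph n G) (hl : 1 ≤ l) (hL : LinksUpTo (2 * l) n G)
    (hc : fpoly G = gsum n (n / 2 + 1) c) (h0 : ∀ i, l ≤ i → i ≤ n / 2 → c i = 0) : Hered n G := by
  rcases Nat.lt_or_ge n (2 * l) with hn | hn
  · exact hered_of_abv hS fun T hT => abv_up hS hL T hT (by omega)
  · exact (equality hS hl hn hL).2.2 ((tau_zero_iff hn hc).1 ((tau_main hS hl hn hL hc).2.1.2 h0))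

/-- the Euler characteristics of the groups of the links of rank at least `2 l` vanish -/
theorem chi_zero_all (hS : HSph n G)
    (hv : ∀ (A : Finset V) (i : ℕ), l ≤ i → L2Van (G.induce (A : Set V)) i) :
    ∀ T : Finset V, G.IsClique (T : Set V) → T.card + 2 * l ≤ n → chiL G T = 0 := by
  intro T hT hTn
  have hv' : ∀ A : Set V, ∀ i, l ≤ i → LV (G.induce A) i := by
    intro A i hi
    rw [lv_fin]
    rintro B rfl
    exact hv B i hi
  have hA : Abv G (lk G T) (n - T.card) := fun B _ j hj => hv' B j (by omega)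
  refine chi_of t_BR hT fun i => ?_
  rcases Nat.lt_or_ge i l with hi | hi
  · exact sing_link hS hT hA (by omega)
  · exact hv' _ i hi

theorem lam_chiL {T : Finset V} (hT : G.IsClique (T : Set V)) :
    lam G (lkF G Finset.univ T) = chiL G T := by
  classical
  rw [← chiW_link T, t_BR V G T hT]

/-- the Charney-Davis inequality for the links -/
theorem cd_links (hS : HSph (2 * m) G) (hH : Hered (2 * m) G) {T : Finset V} (hT : G.IsClique (T : Set V))
    {j k : ℕ} (hj : T.card = 2 * j) (hk : j + k = m) : 0 ≤ (-1 : ℚ) ^ k * lam G (lkF G Finset.univ T) := by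
  rw [lam_chiL hT]
  exact chi_sgn t_BR hS hT (abv_of_hered hS hH T hT) (by omega)

/-- **comparison with the right-angled quantity** -/
theorem weighted_hered (hS : HSph (2 * m) G) (hH : Hered (2 * m) G) (w : Finset V → ℕ) (N : Finset V → ℚ)
    (hN : Orders G w N) :
    (-1 : ℚ) ^ m * chiW G ≤ (-1 : ℚ) ^ m * omegaN G N ∧ 0 ≤ (-1 : ℚ) ^ m * chiW G := by
  constructor
  · rw [omegaN_eq, chiW_eq]
    have hpair : ∀ e ∈ cl G Finset.univ, e.card = 2 → 2 ≤ w e ∧ N e = 2 * w e := by
      intro e he he2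
      obtain ⟨u, v, huv, rfl⟩ := Finset.card_eq_two.1 he2
      exact hN.edge u v ((mem_cl_univ _).1 he (by simp) (by simp) huv)
    refine ge_ra m Finset.univ (fun T hT => card_le_of_hsph hS T ((mem_cl_univ T).1 hT)) w
      (fun e he he2 => (hpair e he he2).1) N hN.empty (fun v _ => hN.vertex v)
      (fun e he he2 => (hpair e he he2).2)
      (fun A B hAB hAB2 h => hN.mul A B hAB ((mem_cl_univ _).1 hAB2) h)
      (fun T hT h3 hc => hN.sign T ((mem_cl_univ _).1 hT) h3 hc) ?_
    intro T hT hne hh j k hj hk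
    exact cd_links hS hH ((mem_cl_univ T).1 hT) hj hk
  · exact chi_sign G fun i hi => singer_hered hS hH i (by omega)

/-- monotonicity in the weights -/
theorem mono_hered (hS : HSph (2 * m) G) (hH : Hered (2 * m) G) (w w' : Finset V → ℕ) (hw : ∀ e, 2 ≤ w e)
    (hww : ∀ e, w e ≤ w' e)
    (hmat : ∀ u v z, G.Adj u v → G.Adj u z → G.Adj v z → w' {u, v} = 2 ∨ w' {u, z} = 2) :
    (-1 : ℚ) ^ m * omegaN G (ordM w) ≤ (-1 : ℚ) ^ m * omegaN G (ordM w') := by
  rw [omegaN_eq, omegaN_eq]
  refine mono m Finset.univ (fun T hT => card_le_of_hsph hS T ((mem_cl_univ T).1 hT)) w w' hw hww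
    (fun T hT u hu v hv z hz h1 h2 h3 => ?_) ?_
  · have h4 := (mem_cl_univ T).1 hT
    exact hmat u v z (h4 hu hv h1) (h4 hu hz h2) (h4 hv hz h3)
  · intro T hT hne hh j k hj hk
    exact cd_links hS hH ((mem_cl_univ T).1 hT) hj hk

/-- **the weighted quantity is a sum over the heavy faces with small links** -/
theorem omega_zero (hS : HSph (2 * m) G)
    (hv : ∀ (A : Finset V) (i : ℕ), l ≤ i → L2Van (G.induce (A : Set V)) i) (w : Finset V → ℕ)
    (N : Finset V → ℚ) (hN : Orders G w N)
    (hw : ∀ T : Finset V, G.IsClique (T : Set V) → Heavy w T → T.card + 2 * l ≤ 2 * m) :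
    omegaN G N = 0 := by
  rw [omegaN_eq, weighted_eq]
  refine Finset.sum_eq_zero fun T hT => ?_
  have hT' := (mem_cl_univ T).1 hT
  by_cases hh : Heavy w T
  · rw [lam_chiL hT', chi_zero_all hS hv T hT' (hw T hT' hh), mul_zero]
  · rw [bN_light (F := cl G Finset.univ) (fun T hT U hU => cl_of_subset hT hU) w N hN.empty
      (fun v _ => hN.vertex v) (fun A B hAB hAB2 h => hN.mul A B hAB ((mem_cl_univ _).1 hAB2) h) T hT hh,
      mul_zero, zero_mul]

end Pool.Agent.U297.LG
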