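import Pool.Agent.U297.GD.Poly

/-!
# Taylor coefficients at `-1/2` of the `γ`-expansion
-/

set_option autoImplicit false

namespace Pool.Agent.U297.LG

open Polynomial Pool.Agent.U297.GD

theorem comp_half : (1 + 2 * X : ℚ[X]).comp (X + C (-1 / 2)) = C 2 * X := by
  have h2 : (2 : ℚ[X]) = C 2 := rfl
  rw [add_comp, mul_comp, X_comp, one_comp, h2, C_comp, mul_add, ← C_mul,
    show (2 * (-1 / 2) : ℚ) = -1 by norm_num]
  simp

/-- the Taylor coefficients of a multiple of `(1 + 2 X)^k` -/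
theorem hasse_low (k j : ℕ) (hj : j < k) (q : ℚ[X]) :
    (hasseDeriv j ((1 + 2 * X) ^ k * q)).eval (-1 / 2 : ℚ) = 0 := by
  rw [← taylor_coeff, taylor_apply, mul_comp, pow_comp, comp_half, mul_pow, ← C_pow, mul_assoc,
    coeff_C_mul, coeff_X_pow_mul', if_neg (by omega), mul_zero]

theorem hasse_pow (k j : ℕ) :
    (hasseDeriv j ((1 + 2 * X : ℚ[X]) ^ k)).eval (-1 / 2 : ℚ) = if k = j then 2 ^ j else 0 := by
  rw [← taylor_coeff, taylor_apply, pow_comp, comp_half, mul_pow, ← C_pow, coeff_C_mul, coeff_X_pow]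
  split_ifs with h1 h2 h3
  · rw [h2, mul_one]
  · exact absurd h1.symm h2
  · exact absurd h3.symm h1
  · rw [mul_zero]

theorem expand {n i : ℕ} (hi : 2 * i ≤ n) :
    (X ^ i * (1 + X) ^ i * (1 + 2 * X) ^ (n - 2 * i) : ℚ[X]) =
      ∑ k ∈ Finset.range (i + 1), C ((-1) ^ k * (i.choose k : ℚ) / 4 ^ i) * (1 + 2 * X) ^ (n - 2 * k) := by
  have h1 : (X * (1 + X) : ℚ[X]) = C (1 / 4) * (-1 + (1 + 2 * X) ^ 2) := by
    have h4 : (C (1 / 4) : ℚ[X]) * 4 = 1 := by
      have : (4 : ℚ[X]) = C 4 := rfl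
      rw [this, ← C_mul]
      norm_num
    calc (X * (1 + X) : ℚ[X]) = 1 * (X * (1 + X)) := (one_mul _).symm
      _ = C (1 / 4) * 4 * (X * (1 + X)) := by rw [h4]
      _ = _ := by ring
  rw [← mul_pow, h1, mul_pow, add_pow, Finset.mul_sum, Finset.sum_mul]
  refine Finset.sum_congr rfl fun k hk => ?_
  rw [Finset.mem_range] at hk
  have h2 : (1 + 2 * X : ℚ[X]) ^ (n - 2 * k) = ((1 + 2 * X) ^ 2) ^ (i - k) * (1 + 2 * X) ^ (n - 2 * i) := by
    rw [← pow_mul, ← pow_add]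
    congr 1
    omega
  rw [h2, ← C_pow]
  have h3 : (C ((-1) ^ k * (i.choose k : ℚ) / 4 ^ i) : ℚ[X]) = C ((1 / 4) ^ i) * (-1) ^ k * (i.choose k : ℚ[X]) := by
    have e1 : ((-1 : ℚ[X]) ^ k) = C ((-1) ^ k) := by simp
    have e2 : (i.choose k : ℚ[X]) = C (i.choose k : ℚ) := by simp
    rw [e1, e2, ← C_mul, ← C_mul]
    congr 1
    rw [one_div, inv_pow]
    field_simp
  rw [h3]
  ring

/-- the Taylor coefficient of order `n - 2 l` of a term -/
theorem hasse_term {n i l : ℕ} (hi : 2 * i ≤ n) (hl : 2 * l ≤ n) :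
    (hasseDeriv (n - 2 * l) (X ^ i * (1 + X) ^ i * (1 + 2 * X) ^ (n - 2 * i) : ℚ[X])).eval (-1 / 2 : ℚ) =
      (-1) ^ l * 2 ^ (n - 2 * l) * ((i.choose l : ℚ) / 4 ^ i) := by
  rw [expand hi, map_sum, eval_finsetSum]
  have h1 : ∀ k ∈ Finset.range (i + 1),
      (hasseDeriv (n - 2 * l) (C ((-1) ^ k * (i.choose k : ℚ) / 4 ^ i) * (1 + 2 * X) ^ (n - 2 * k) : ℚ[X])).eval
        (-1 / 2 : ℚ) = if k = l then (-1) ^ l * 2 ^ (n - 2 * l) * ((i.choose l : ℚ) / 4 ^ i) else 0 := by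
    intro k hk
    rw [Finset.mem_range] at hk
    rw [← smul_eq_C_mul, map_smul, eval_smul, hasse_pow, smul_eq_mul]
    by_cases h : k = l
    · subst h
      rw [if_pos rfl, if_pos rfl]
      ring
    · rw [if_neg (by omega), if_neg h, mul_zero]
  rw [Finset.sum_congr rfl h1, Finset.sum_ite_eq']
  split_ifs with h
  · rfl
  · rw [Finset.mem_range] at h
    rw [Nat.choose_eq_zero_of_lt (by omega)]
    simp

/-- the Taylor coefficients of the `γ`-expansion -/
theorem hasse_gamma {n m l : ℕ} (hm : 2 * m ≤ n) (hl : 2 * l ≤ n) (c : ℕ → ℚ) :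
    (hasseDeriv (n - 2 * l) (gsum n (m + 1) c)).eval (-1 / 2 : ℚ) =
      (-1) ^ l * 2 ^ (n - 2 * l) * ∑ i ∈ Finset.range (m + 1), (i.choose l : ℚ) * c i / 4 ^ i := by
  rw [gsum, map_sum, eval_finsetSum, Finset.mul_sum]
  refine Finset.sum_congr rfl fun i hi => ?_
  rw [Finset.mem_range] at hi
  rw [← smul_eq_C_mul, map_smul, eval_smul, hasse_term (by omega) hl, smul_eq_mul]
  ring

/-- the order of the zero at `-1/2` and the degree of the `γ`-polynomial -/
theorem dvd_iff_gamma {n m l : ℕ} (hm : 2 * m ≤ n) (hl : 2 * l ≤ n) (c : ℕ → ℚ) :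
    (1 + 2 * X : ℚ[X]) ^ (n - 2 * l + 1) ∣ gsum n (m + 1) c ↔ ∀ i, l ≤ i → i ≤ m → c i = 0 := by
  constructor
  · rintro ⟨q, hq⟩
    by_contra hcon
    push Not at hcon
    classical
    obtain ⟨i0, h1, h2, h3⟩ := hcon
    -- the largest index
    obtain ⟨g, hg, hmax⟩ := (Finset.filter (fun i => l ≤ i ∧ c i ≠ 0) (Finset.range (m + 1))).exists_max_image
      (fun i => i) ⟨i0, by simp only [Finset.mem_filter, Finset.mem_range]; exact ⟨by omega, h1, h3⟩⟩
    rw [Finset.mem_filter, Finset.mem_range] at hg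
    have h4 := hasse_gamma (n := n) (m := m) (l := g) hm (by omega) c
    rw [hq, hasse_low _ _ (by omega)] at h4
    rw [Finset.sum_eq_single g] at h4
    · rw [Nat.choose_self] at h4
      have h5 : ((-1 : ℚ) ^ g * 2 ^ (n - 2 * g) * (((1 : ℕ) : ℚ) * c g / 4 ^ g)) ≠ 0 := by
        have e1 : ((-1 : ℚ) ^ g) ≠ 0 := pow_ne_zero _ (by norm_num)
        have e2 : ((2 : ℚ) ^ (n - 2 * g)) ≠ 0 := pow_ne_zero _ (by norm_num)
        have e3 : ((4 : ℚ) ^ g) ≠ 0 := pow_ne_zero _ (by norm_num)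
        have e4 := hg.2.2
        rw [Nat.cast_one, one_mul]
        exact mul_ne_zero (mul_ne_zero e1 e2) (div_ne_zero e4 e3)
      exact h5 h4.symm
    · intro i hi hne
      rw [Finset.mem_range] at hi
      rcases Nat.lt_or_ge i g with h | h
      · rw [Nat.choose_eq_zero_of_lt h]
        simp
      · have : c i = 0 := by
          by_contra hc
          have := hmax i (by
            rw [Finset.mem_filter, Finset.mem_range]
            exact ⟨hi, by omega, hc⟩)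
          omega
        rw [this]
        simp
    · intro h
      exact absurd (Finset.mem_range.2 hg.1) h
  · intro h
    rw [gsum]
    refine Finset.dvd_sum fun i hi => ?_
    rw [Finset.mem_range] at hi
    rcases Nat.lt_or_ge i l with h1 | h1
    · exact Dvd.dvd.mul_left (Dvd.dvd.mul_left (pow_dvd_pow _ (by omega)) _) _
    · rw [h i h1 (by omega), C_0, zero_mul]
      exact dvd_zero _

end Pool.Agent.U297.LG
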