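import Pool.Agent.U297.LG.Main
import Pool.Agent.U297.LG.Poly

/-!
# Taylor coefficients of the `γ`-polynomial at `1/4`
-/

set_option autoImplicit false
set_option linter.unusedSectionVars false

namespace Pool.Agent.U297.LG

open Pool.Agent.W907.SG Pool.Agent.W907.SM Pool.Agent.TH652.Above Pool.Agent.R703.CW
open Pool.Agent.Y132.SI Pool.Agent.N13.EU Pool.Agent.N13.PL Pool.Agent.U297.GD
open Polynomial (X C)

/-- `∑ C(i, l) c_i / 4^i` -/
noncomputable def tau (n l : ℕ) (c : ℕ → ℚ) : ℚ :=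
  ∑ i ∈ Finset.range (n / 2 + 1), (i.choose l : ℚ) * c i / 4 ^ i

theorem chiSum_zero {V : Type} [Fintype V] (G : SimpleGraph V) : chiSum G 0 = chiL G ∅ := by
  classical
  unfold chiSum
  rw [Finset.sum_eq_single ∅]
  · rw [if_pos]
    simp
  · intro T _ hT
    rw [if_neg]
    rintro ⟨-, h⟩
    exact hT (Finset.card_eq_zero.1 h)
  · intro h
    exact absurd (Finset.mem_univ _) h

theorem eval_eq {V : Type} [Fintype V] (G : SimpleGraph V) : (fpoly G).eval (-1 / 2 : ℚ) = chiL G ∅ := by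
  rw [← chiSum_zero, chiSum_eq, Polynomial.hasseDeriv_zero]
  rfl

section Fin

variable {V : Type} [Fintype V] [LinearOrder V] {G : SimpleGraph V} {n l : ℕ} {c : ℕ → ℚ}

theorem chiL_link {T : Finset V} (hT : G.IsClique (T : Set V)) [Fintype ↥(lk G T)] :
    chiL G T = (fpoly (G.induce (lk G T))).eval (-1 / 2 : ℚ) := by
  rw [eval_eq, t_BR V G T hT, chiL_empty]

theorem chiSum_tau (hl : 2 * l ≤ n) (h : fpoly G = gsum n (n / 2 + 1) c) :
    chiSum G (n - 2 * l) = (-1) ^ l * 2 ^ (n - 2 * l) * tau n l c := by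
  rw [chiSum_eq, h, hasse_gamma (by omega) hl, tau]

theorem tau_eq (hl : 2 * l ≤ n) (h : fpoly G = gsum n (n / 2 + 1) c) :
    2 ^ (n - 2 * l) * tau n l c = (-1) ^ l * chiSum G (n - 2 * l) := by
  have e : (-1 : ℚ) ^ l * (-1) ^ l = 1 := by
    rw [← mul_pow]
    norm_num
  rw [chiSum_tau hl h]
  calc (2 : ℚ) ^ (n - 2 * l) * tau n l c = ((-1 : ℚ) ^ l * (-1) ^ l) * (2 ^ (n - 2 * l) * tau n l c) := by
        rw [e, one_mul]
    _ = _ := by ring

theorem tau_nonneg_iff (hl : 2 * l ≤ n) (h : fpoly G = gsum n (n / 2 + 1) c) :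
    0 ≤ tau n l c ↔ 0 ≤ (-1 : ℚ) ^ l * chiSum G (n - 2 * l) := by
  rw [← tau_eq hl h]
  constructor
  · intro h1
    positivity
  · intro h1
    exact nonneg_of_mul_nonneg_right h1 (by positivity)

theorem tau_zero_iff (hl : 2 * l ≤ n) (h : fpoly G = gsum n (n / 2 + 1) c) :
    tau n l c = 0 ↔ chiSum G (n - 2 * l) = 0 := by
  rw [chiSum_tau hl h]
  constructor
  · intro h1
    rw [h1, mul_zero]
  · intro h1
    have e1 : ((-1 : ℚ) ^ l * 2 ^ (n - 2 * l)) ≠ 0 :=
      mul_ne_zero (pow_ne_zero _ (by norm_num)) (pow_ne_zero _ (by norm_num))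
    exact (mul_eq_zero.1 h1).resolve_left e1

/-- **the inequality, the equality case and the `ℓ²`-homology** -/
theorem tau_main (hS : HSph n G) (hl : 1 ≤ l) (hn : 2 * l ≤ n) (hL : LinksUpTo (2 * l) n G)
    (h : fpoly G = gsum n (n / 2 + 1) c) :
    0 ≤ tau n l c ∧ (tau n l c = 0 ↔ ∀ i, l ≤ i → i ≤ n / 2 → c i = 0) ∧
      (tau n l c = 0 ↔ ∀ (A : Finset V) (i : ℕ), l ≤ i → L2Van (G.induce (A : Set V)) i) := by
  obtain ⟨h1, h2, -⟩ := equality hS hl hn hL
  refine ⟨(tau_nonneg_iff hn h).2 (chiSum_sign hS hn hL), ?_, (tau_zero_iff hn h).trans h1⟩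
  rw [tau_zero_iff hn h, h2, h, dvd_iff_gamma (by omega) hn]

theorem exists_gsum (hS : HSph n G) : ∃ c : ℕ → ℚ, fpoly G = gsum n (n / 2 + 1) c :=
  exists_gam n (fpoly G) (fpoly_deg hS) (fpoly_sym hS)

/-- from the Charney-Davis inequality -/
theorem chiSum_of_cd (hS : HSph n G) (hn : 2 * l ≤ n)
    (hcd : ∀ (W : Type) [Fintype W] [LinearOrder W] (H : SimpleGraph W), HSph (2 * l) H →
      0 ≤ (-1 : ℚ) ^ l * (fpoly H).eval (-1 / 2)) :
    0 ≤ (-1 : ℚ) ^ l * chiSum G (n - 2 * l) := by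
  classical
  unfold chiSum
  rw [Finset.mul_sum]
  refine Finset.sum_nonneg fun T _ => ?_
  split_ifs with hT
  · have h1 := hsph_link hS T hT.1
    rw [show n - T.card = 2 * l by omega] at h1
    rw [chiL_link hT.1]
    exact hcd _ _ h1
  · rw [mul_zero]

/-- the leading coefficient -/
theorem tau_lead (hl : 2 * l ≤ n) (h : ∀ i, l < i → i ≤ n / 2 → c i = 0) : tau n l c = c l / 4 ^ l := by
  rw [tau, Finset.sum_eq_single l]
  · rw [Nat.choose_self, Nat.cast_one, one_mul]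
  · intro i hi hne
    rw [Finset.mem_range] at hi
    rcases Nat.lt_or_ge i l with h1 | h1
    · rw [Nat.choose_eq_zero_of_lt h1]
      simp
    · rw [h i (by omega) (by omega)]
      simp
  · intro h1
    exact absurd (Finset.mem_range.2 (by omega)) h1

theorem tau_two_three (hn : 6 ≤ n) (h : ∀ i, 4 ≤ i → i ≤ n / 2 → c i = 0) :
    tau n 2 c = (4 * c 2 + 3 * c 3) / 64 := by
  have h1 : tau n 2 c = ∑ i ∈ Finset.range 4, (i.choose 2 : ℚ) * c i / 4 ^ i := by
    rw [tau]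
    symm
    refine Finset.sum_subset ?_ ?_
    · intro i hi
      rw [Finset.mem_range] at hi ⊢
      omega
    · intro i hi hi'
      rw [Finset.mem_range] at hi hi'
      rw [h i (by omega) (by omega)]
      simp
  rw [h1]
  simp only [Finset.sum_range_succ, Finset.sum_range_zero]
  rw [show Nat.choose 0 2 = 0 by decide, show Nat.choose 1 2 = 0 by decide, show Nat.choose 2 2 = 1 by decide,
    show Nat.choose 3 2 = 3 by decide]
  push_cast
  ring

end Fin

/-- The Charney-Davis inequality for flag homology spheres of dimension `2 l - 1`. -/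
def CD (l : ℕ) : Prop :=
  ∀ (V : Type) [Fintype V] [LinearOrder V] (G : SimpleGraph V), HSph (2 * l) G →
    0 ≤ (-1 : ℚ) ^ l * (fpoly G).eval (-1 / 2)

theorem tau_of_cd {l : ℕ} (h : CD l) {n : ℕ} {V : Type} [Fintype V] [LinearOrder V] {G : SimpleGraph V}
    {c : ℕ → ℚ} (hS : HSph n G) (hn : 2 * l ≤ n) (hc : fpoly G = gsum n (n / 2 + 1) c) : 0 ≤ tau n l c :=
  (tau_nonneg_iff hn hc).2 (chiSum_of_cd hS hn h)

theorem cd_of_lead {l : ℕ} (h : ∀ (V : Type) [Fintype V] [LinearOrder V] (G : SimpleGraph V) (c : ℕ → ℚ),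
    HSph (2 * l) G → fpoly G = gsum (2 * l) (2 * l / 2 + 1) c → 0 ≤ c l) : CD l := by
  intro V _ _ G hS
  obtain ⟨c, hc⟩ := exists_gsum hS
  have h1 := h V G c hS hc
  have h2 : tau (2 * l) l c = c l / 4 ^ l := tau_lead le_rfl fun i hi hi' => by omega
  have h3 := tau_eq (l := l) le_rfl hc
  rw [Nat.sub_self, pow_zero, one_mul, h2, chiSum_zero, ← eval_eq] at h3
  rw [← h3]
  positivity

end Pool.Agent.U297.LG
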