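import Pool.Agent.U297.GD.Main

/-!
# From the links of dimension at most `2 l - 1` to the whole sphere

Let the flag complex of `G` be a homology sphere of dimension `n - 1`. If the `ℓ²`-homology of the groups of the
links of rank `≤ 2 l` vanishes above the middle and the Euler characteristics of the groups of the links of rank
`2 l` vanish, then no special subgroup has `ℓ²`-homology in the degrees `≥ l`.
-/

set_option autoImplicit false
set_option linter.unusedSectionVars false

namespace Pool.Agent.U297.LG

open Pool.Agent.W907.SG Pool.Agent.W907.SM Pool.Agent.TH652.Above Pool.Agent.R703.CW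
open Pool.Agent.Y132.SI Pool.Agent.N13.EU Pool.Agent.N13.PL Pool.Agent.U297.GD
open Polynomial (X C)

/-- the `ℓ²`-homology of the groups of the links of rank at most `r` vanishes above the middle -/
def LinksUpTo (r n : ℕ) {V : Type} [Fintype V] [LinearOrder V] (G : SimpleGraph V) : Prop :=
  ∀ T : Finset V, G.IsClique (T : Set V) → n ≤ T.card + r → ∀ i : ℕ, n < 2 * i + T.card →
    LV (G.induce (lk G T)) i

section Fin

variable {V : Type} [Fintype V] [LinearOrder V] {G : SimpleGraph V} {n l : ℕ}

/-- the links of rank at most four -/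
theorem linksUpTo_four (hS : HSph n G) : LinksUpTo 4 n G := by
  classical
  intro T hT hr i hi
  have h1 := hsph_link hS T hT
  have h2 := card_le_of_hsph hS T hT
  exact Pool.Agent.N13.EU.lv_of (singer_hered h1 (hered_four h1 (by omega)) i (by omega))

theorem linksUpTo_of_singer {N : ℕ} (hS : HSph n G) (h : Singer N) : LinksUpTo N n G := by
  classical
  intro T hT hr i hi
  have h2 := card_le_of_hsph hS T hT
  exact Pool.Agent.N13.EU.lv_of (h (n - T.card) (by omega) _ _ (hsph_link hS T hT) i (by omega))

theorem LinksUpTo.mono {r s : ℕ} (h : LinksUpTo s n G) (hrs : r ≤ s) : LinksUpTo r n G :=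
  fun T hT hr i hi => h T hT (by omega) i hi

/-- all full subcomplexes of the links of rank at most `r` -/
theorem abv_up {r : ℕ} (hS : HSph n G) (h : LinksUpTo r n G) :
    ∀ T : Finset V, G.IsClique (T : Set V) → n ≤ T.card + r → Abv G (lk G T) (n - T.card) := by
  classical
  have key : ∀ s : ℕ, s ≤ r → ∀ T : Finset V, G.IsClique (T : Set V) → T.card + s = n →
      Abv G (lk G T) s := by
    intro s
    induction s with
    | zero =>
      intro hs T hT hTn A hA i hi
      refine lv_dim G A i fun S hS' hSA => ?_
      have h1 := hsph_link hS T hT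
      rw [show n - T.card = 0 by omega] at h1
      by_contra hcon
      have hpos : 0 < S.card := by omega
      obtain ⟨x, hx⟩ := Finset.card_pos.1 hpos
      have h2 : (G.induce (lk G T)).IsClique (({⟨x, hA (hSA hx)⟩} : Finset ↥(lk G T)) : Set ↥(lk G T)) := by
        simp
      have h3 := card_le_of_hsph h1 _ h2
      simp at h3
    | succ s ih =>
      intro hs T hT hTn A hA i hi
      refine descend G (lk G T) i (h T hT (by omega) i (by omega)) (fun w hw Y hY => ?_) A hA
      rw [lk_ins] at hY
      exact ih (by omega) (insert w T) (clique_ins hT hw) (by rw [card_ins hw]; omega) Y hY i (by omega)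
  intro T hT hr
  have h1 := card_le_of_hsph hS T hT
  exact key (n - T.card) (by omega) T hT (by omega)

/-- **from the links of rank `2 l` to the whole sphere** -/
theorem local_global (hS : HSph n G) (hl : 1 ≤ l) (h : LinksUpTo (2 * l) n G)
    (h0 : ∀ T : Finset V, G.IsClique (T : Set V) → T.card + 2 * l = n → chiL G T = 0) :
    ∀ T : Finset V, G.IsClique (T : Set V) → ∀ A : Set V, A ⊆ lk G T → ∀ i : ℕ, l ≤ i →
      LV (G.induce A) i := by
  classical
  have hab := abv_up hS h
  have key : ∀ r : ℕ, ∀ T : Finset V, G.IsClique (T : Set V) → T.card + r = n →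
      ∀ A : Set V, A ⊆ lk G T → ∀ i : ℕ, l ≤ i → LV (G.induce A) i := by
    intro r
    induction r with
    | zero =>
      intro T hT hTn A hA i hi
      exact hab T hT (by omega) A hA i (by omega)
    | succ r ih =>
      intro T hT hTn A hA i hi
      rcases Nat.lt_or_ge (r + 1) (2 * l) with hr | hr
      · exact hab T hT (by omega) A hA i (by omega)
      · have hlinks : ∀ w ∈ lk G T, ∀ Y : Set V, Y ⊆ lk G T ∩ G.neighborSet w → ∀ j, l ≤ j →
            LV (G.induce Y) j := by
          intro w hw Y hY j hj
          rw [lk_ins] at hY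
          exact ih (insert w T) (clique_ins hT hw) (by rw [card_ins hw]; omega) Y hY j hj
        rcases Nat.eq_or_lt_of_le hr with hr' | hr'
        · -- rank `2 l`
          rcases Nat.eq_or_lt_of_le hi with hi' | hi'
          · subst hi'
            exact descend G (lk G T) l (sing_chi t_BR hS hT (hab T hT (by omega))
              (h0 T hT (by omega)) l) (fun w hw Y hY => hlinks w hw Y hY l le_rfl) A hA
          · exact hab T hT (by omega) A hA i (by omega)
        · -- rank `> 2 l`
          have hup : ∀ B : Set V, B ⊆ lk G T → ∀ j : ℕ, l + 1 ≤ j → LV (G.induce B) j := by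
            intro B hB j hj
            refine ascend G (lk G T) ∅ j (fun A' _ hA' => ?_) (fun w hw _ Y hY j' hj' =>
              hlinks w hw Y hY j' (by omega)) B hB
            have : A' = ∅ := Set.subset_empty_iff.1 hA'
            subst this
            exact lv_empty G j (by omega)
          rcases Nat.eq_or_lt_of_le hi with hi' | hi'
          · subst hi'
            have hA' : Abv G (lk G T) (n - T.card) := fun B hB j hj => hup B hB j (by omega)
            exact descend G (lk G T) l (sing_link hS hT hA' (by omega))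
              (fun w hw Y hY => hlinks w hw Y hY l le_rfl) A hA
          · exact hup A hA i hi'
  intro T hT
  have h1 := card_le_of_hsph hS T hT
  exact key (n - T.card) T hT (by omega)

theorem hered_of_local (hS : HSph n G) (hl : 1 ≤ l) (h : LinksUpTo (2 * l) n G)
    (h0 : ∀ T : Finset V, G.IsClique (T : Set V) → T.card + 2 * l = n → chiL G T = 0) :
    Hered n G := by
  classical
  have hlg := local_global hS hl h h0
  have hab := abv_up hS h
  refine hered_of_abv hS fun T hT A hA i hi => ?_
  rcases Nat.lt_or_ge (n - T.card) (2 * l) with hr | hr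
  · exact hab T hT (by omega) A hA i hi
  · exact hlg T hT A hA i (by omega)

/-- the sign of the sum of the Euler characteristics of the links of rank `2 l` -/
theorem chiSum_sign (hS : HSph n G) (hn : 2 * l ≤ n) (h : LinksUpTo (2 * l) n G) :
    0 ≤ (-1 : ℚ) ^ l * chiSum G (n - 2 * l) := by
  classical
  unfold chiSum
  rw [Finset.mul_sum]
  refine Finset.sum_nonneg fun T _ => ?_
  split_ifs with hT
  · exact chi_sgn t_BR hS hT.1 (abv_up hS h T hT.1 (by omega)) (by omega)
  · rw [mul_zero]

theorem chi_zero_of_sum (hS : HSph n G) (hn : 2 * l ≤ n) (h : LinksUpTo (2 * l) n G)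
    (h0 : chiSum G (n - 2 * l) = 0) :
    ∀ T : Finset V, G.IsClique (T : Set V) → T.card + 2 * l = n → chiL G T = 0 := by
  classical
  intro T hT hTn
  have h1 : (-1 : ℚ) ^ l * chiSum G (n - 2 * l) = 0 := by rw [h0, mul_zero]
  unfold chiSum at h1
  rw [Finset.mul_sum, Finset.sum_eq_zero_iff_of_nonneg] at h1
  · have h2 := h1 T (Finset.mem_univ _)
    rw [if_pos ⟨hT, by omega⟩] at h2
    rcases mul_eq_zero.1 h2 with h3 | h3
    · exact absurd h3 (pow_ne_zero _ (by norm_num))
    · exact h3
  · intro T _
    split_ifs with hT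
    · exact chi_sgn t_BR hS hT.1 (abv_up hS h T hT.1 (by omega)) (by omega)
    · rw [mul_zero]

/-- the equality case -/
theorem equality (hS : HSph n G) (hl : 1 ≤ l) (hn : 2 * l ≤ n) (h : LinksUpTo (2 * l) n G) :
    (chiSum G (n - 2 * l) = 0 ↔ ∀ (A : Finset V) (i : ℕ), l ≤ i → L2Van (G.induce (A : Set V)) i) ∧
    (chiSum G (n - 2 * l) = 0 ↔ (1 + 2 * X : Polynomial ℚ) ^ (n - 2 * l + 1) ∣ fpoly G) ∧
    (chiSum G (n - 2 * l) = 0 → Hered n G) := by
  classical
  have h1 : chiSum G (n - 2 * l) = 0 → ∀ (A : Finset V) (i : ℕ), l ≤ i → L2Van (G.induce (A : Set V)) i := by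
    intro h0 A i hi
    exact local_global hS hl h (chi_zero_of_sum hS hn h h0) ∅ (by simp) (A : Set V)
      (by intro v _ u hu; exact absurd hu (Finset.notMem_empty u)) i hi _ _
  have h2 : (∀ (A : Finset V) (i : ℕ), l ≤ i → L2Van (G.induce (A : Set V)) i) →
      ∀ T : Finset V, G.IsClique (T : Set V) → T.card + 2 * l ≤ n → chiL G T = 0 := by
    intro hv T hT hTn
    have hv' : ∀ A : Set V, ∀ i, l ≤ i → LV (G.induce A) i := by
      intro A i hi
      rw [lv_fin]
      rintro B rfl
      exact hv B i hi
    have hA : Abv G (lk G T) (n - T.card) := fun B _ j hj => hv' B j (by omega)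
    refine chi_of t_BR hT fun i => ?_
    rcases Nat.lt_or_ge i l with hi | hi
    · exact sing_link hS hT hA (by omega)
    · exact hv' _ i hi
  have h3 : (∀ T : Finset V, G.IsClique (T : Set V) → T.card + 2 * l ≤ n → chiL G T = 0) →
      (1 + 2 * X : Polynomial ℚ) ^ (n - 2 * l + 1) ∣ fpoly G := by
    intro h0
    rw [t_TAY V G _]
    intro j hj
    refine Finset.sum_eq_zero fun T _ => ?_
    split_ifs with hT
    · exact h0 T hT.1 (by omega)
    · rfl
  have h4 : (1 + 2 * X : Polynomial ℚ) ^ (n - 2 * l + 1) ∣ fpoly G → chiSum G (n - 2 * l) = 0 := by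
    intro hd
    have := (t_TAY V G _).1 hd (n - 2 * l) (by omega)
    exact this
  refine ⟨⟨h1, fun hv => h4 (h3 (h2 hv))⟩, ⟨fun h0 => h3 (h2 (h1 h0)), h4⟩, fun h0 => ?_⟩
  exact hered_of_local hS hl h (chi_zero_of_sum hS hn h h0)

end Fin

end Pool.Agent.U297.LG
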